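import Pool.Agent.H67.LF.SHP

/-!
# MP_c59857_nt, Theorem U, front end: the measure on the side of the numbers
-/

set_option autoImplicit false

open MeasureTheory ProbabilityTheory Filter Topology Finset
open scoped Nat ENNReal

namespace Pool.Agent.H67.LF

open Pool.Agent.H28.LF
open Pool.Agent.H24.MR (lam FinAddInv)
open Pool.Agent.H28.MCL (ldB Aw)

theorem shX_apply (ξ : Xi) : shX ξ = shS LX ξ := rfl

theorem ptX_zero (τ : ℕ → ℕ → Bool) (n : ℕ) : ptS (lX τ) n 0 = (lt n, τ n) := by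
  show lX τ ((n : ℤ) + 0).toNat = _
  rw [add_zero, Int.toNat_natCast]
  rfl

theorem ptX_nat (τ : ℕ → ℕ → Bool) (n i : ℕ) :
    ptS (lX τ) n (i : ℤ) = (lt (n + i), τ (n + i)) := by
  show lX τ ((n : ℤ) + i).toNat = _
  rw [← Nat.cast_add, Int.toNat_natCast]
  rfl

theorem wX_pt (τ : ℕ → ℕ → Bool) (n i : ℕ) : wX (ptS (lX τ) n) i = lt (n + i + 1) := by
  show (ptS (lX τ) n ((i : ℤ) + 1)).1 = _
  have h : ((i : ℤ) + 1) = ((i + 1 : ℕ) : ℤ) := by push_cast; ring
  rw [h, ptX_nat]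
  rfl

theorem thX_pt (τ : ℕ → ℕ → Bool) (n : ℕ) : thX (ptS (lX τ) n) = thv (τ n) := by
  show thv (ptS (lX τ) n 0).2 = _
  rw [ptX_zero]

theorem mm_pt (u : Bool × Bool → ℂ) (τ : ℕ → ℕ → Bool) (K : ℕ) (n : ℕ) :
    mm u K (thX (ptS (lX τ) n)) (wX (ptS (lX τ) n)) 0 = mw u K (thv (τ n)) n := by
  unfold mm mw
  congr 1
  refine Finset.sum_congr rfl fun k _ => ?_
  rw [thX_pt]
  congr 1
  unfold Pr Fk
  refine Finset.prod_congr rfl fun i _ => ?_
  rw [wX_pt, zero_add]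

theorem cont_thX (hT : T_THV) : Continuous thX := by
  have h1 := hT.1
  unfold thX
  fun_prop

theorem cont_em : Continuous Pool.Agent.H28.LF.em := by
  unfold Pool.Agent.H28.LF.em
  fun_prop

theorem cont_ux (u : Bool × Bool → ℂ) (i : ℕ) : Continuous fun ξ : Xi => u (wX ξ i) := by
  have h1 : Continuous u := continuous_of_discreteTopology
  have h2 : Continuous fun ξ : Xi => wX ξ i := by
    unfold wX
    fun_prop
  exact h1.comp h2

theorem cont_mm (hT : T_THV) (u : Bool × Bool → ℂ) (K l : ℕ) :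
    Continuous fun ξ : Xi => mm u K (thX ξ) (wX ξ) l := by
  unfold mm Pr
  have h1 := cont_thX hT
  have h2 := cont_em
  have h3 := cont_ux u
  refine Continuous.div_const ?_ _
  refine continuous_finsetSum _ fun k _ => ?_
  refine Continuous.mul ?_ ?_
  · exact h2.comp (continuous_const.mul h1)
  · exact continuous_finsetProd _ fun i _ => h3 _

theorem pf_SYX (hT : T_THV) (hS : T_SHP) (hL : Pool.Agent.H28.MCL.T_LDB) : T_SYX := by
  intro u ε U x y τ _ hA hτ hbig
  have hμ := (hL U x y hA).1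
  obtain ⟨P, hP, hinv, hclo, hcls⟩ := hS LX (ldB U x y) (lX τ) hμ
  refine ⟨P, ⟨hP, hinv, ?_, ?_⟩, hclo⟩
  · have key : ∀ s : ℕ, P {ξ : Xi | (ξ 0).2 s ≠ (ξ 1).2 s} = 0 := by
      intro s
      have hc : IsClopen {ξ : Xi | (ξ 0).2 s ≠ (ξ 1).2 s} := by
        have h0 : Continuous fun ξ : Xi => ((ξ 0).2 s, (ξ 1).2 s) := by fun_prop
        have h1 : IsClopen {z : Bool × Bool | z.1 ≠ z.2} := isClopen_discrete _
        exact h1.preimage h0
      have h2 := hclo _ hc
      have h3 : {n | ptS (lX τ) n ∈ {ξ : Xi | (ξ 0).2 s ≠ (ξ 1).2 s}} ⊆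
          {n | τ n ≠ τ (n + 1)} := by
        intro n hn e
        apply hn
        have e1 : (ptS (lX τ) n 0).2 = τ n := by rw [ptX_zero]
        have e2 : (ptS (lX τ) n 1).2 = τ (n + 1) := by
          have := ptX_nat τ n 1
          rw [Nat.cast_one] at this
          rw [this]
        rw [e1, e2, e]
      have h4 := fai_mono hμ h3
      rw [hτ] at h4
      have h5 : P.real {ξ : Xi | (ξ 0).2 s ≠ (ξ 1).2 s} = 0 := by
        refine le_antisymm ?_ measureReal_nonneg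
        rw [h2]; exact h4
      exact (measureReal_eq_zero_iff (measure_ne_top _ _)).1 h5
    have h6 : ∀ᵐ ξ ∂P, ∀ s : ℕ, ¬ (ξ 0).2 s ≠ (ξ 1).2 s := by
      rw [ae_all_iff]
      intro s
      exact measure_eq_zero_iff_ae_notMem.1 (key s)
    filter_upwards [h6] with ξ hξ
    funext s
    exact not_not.1 (hξ s)
  · intro K hK
    have hc : IsClosed {ξ : Xi | ε ≤ ‖mm u K (thX ξ) (wX ξ) 0‖} :=
      isClosed_le continuous_const (cont_mm hT u K 0).norm
    have h1 := hcls _ hc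
    refine le_trans ?_ h1
    have h2 : {n | ptS (lX τ) n ∈ {ξ : Xi | ε ≤ ‖mm u K (thX ξ) (wX ξ) 0‖}} =
        {n | ε ≤ ‖mw u K (thv (τ n)) n‖} := by
      ext n
      show ε ≤ ‖mm u K (thX (ptS (lX τ) n)) (wX (ptS (lX τ) n)) 0‖ ↔ _
      rw [mm_pt]
      rfl
    rw [h2]
    exact hbig K hK

end Pool.Agent.H67.LF
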