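import Pool.Agent.H67.LF.Hlp

/-!
Project LF, row PIR: the inequality for a pair of processes.
-/

set_option autoImplicit false

open MeasureTheory ProbabilityTheory Filter Topology Finset
open scoped Nat ENNReal

namespace Pool.Agent.H67.LF

open Pool.Agent.H24.T2 (Pset)
open Pool.Agent.H67.AG (avgP ul Inv TT Fac)
open Pool.Agent.H28.LF

/-- the pair sum over a window -/
theorem pair_sum (n : ℕ) (I : Finset (Fin n)) (L : ℕ) (hI : ∀ i ∈ I, (i : ℕ) < L) (c : ℕ → ℝ)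
    (hc : ∀ d, 0 ≤ c d) (i : Fin n) (hi : i ∈ I) :
    ∑ j ∈ I.filter (fun j => j ≠ i), c (if (i : ℕ) < j then (j : ℕ) - i else (i : ℕ) - j) ≤
      2 * ∑ d ∈ Icc 1 L, c d := by
  have hsplit : I.filter (fun j => j ≠ i) =
      (I.filter (fun j : Fin n => (i : ℕ) < (j : ℕ))) ∪ (I.filter (fun j : Fin n => (j : ℕ) < (i : ℕ))) := by
    ext j
    simp only [Finset.mem_filter, Finset.mem_union]
    constructor
    · rintro ⟨h1, h2⟩
      rcases lt_trichotomy (i : ℕ) j with h | h | h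
      · exact Or.inl ⟨h1, h⟩
      · exact absurd (Fin.ext h.symm) h2
      · exact Or.inr ⟨h1, h⟩
    · rintro (⟨h1, h2⟩ | ⟨h1, h2⟩)
      · exact ⟨h1, fun h => by rw [h] at h2; exact lt_irrefl _ h2⟩
      · exact ⟨h1, fun h => by rw [h] at h2; exact lt_irrefl _ h2⟩
  have hdis : Disjoint (I.filter (fun j : Fin n => (i : ℕ) < (j : ℕ))) (I.filter (fun j : Fin n => (j : ℕ) < (i : ℕ))) := by
    rw [Finset.disjoint_left]
    intro j h1 h2
    rw [Finset.mem_filter] at h1 h2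
    omega
  rw [hsplit, Finset.sum_union hdis, two_mul]
  refine add_le_add ?_ ?_
  · have e1 : ∑ j ∈ I.filter (fun j : Fin n => (i : ℕ) < (j : ℕ)),
        c (if (i : ℕ) < j then (j : ℕ) - i else (i : ℕ) - j) =
        ∑ d ∈ (I.filter (fun j : Fin n => (i : ℕ) < (j : ℕ))).image (fun j : Fin n => (j : ℕ) - (i : ℕ)), c d := by
      rw [Finset.sum_image]
      · refine Finset.sum_congr rfl fun j hj => ?_
        rw [Finset.mem_filter] at hj
        rw [if_pos hj.2]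
      · intro j hj k hk hjk
        have hj2 := (Finset.mem_filter.1 (Finset.mem_coe.1 hj)).2
        have hk2 := (Finset.mem_filter.1 (Finset.mem_coe.1 hk)).2
        have hjk' : (j : ℕ) - i = (k : ℕ) - i := hjk
        exact Fin.ext (by omega)
    rw [e1]
    refine Finset.sum_le_sum_of_subset_of_nonneg ?_ fun d _ _ => hc d
    intro d hd
    obtain ⟨j, hj, rfl⟩ := Finset.mem_image.1 hd
    rw [Finset.mem_filter] at hj
    have := hI j hj.1
    rw [Finset.mem_Icc]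
    omega
  · have e1 : ∑ j ∈ I.filter (fun j : Fin n => (j : ℕ) < (i : ℕ)),
        c (if (i : ℕ) < j then (j : ℕ) - i else (i : ℕ) - j) =
        ∑ d ∈ (I.filter (fun j : Fin n => (j : ℕ) < (i : ℕ))).image (fun j : Fin n => (i : ℕ) - (j : ℕ)), c d := by
      rw [Finset.sum_image]
      · refine Finset.sum_congr rfl fun j hj => ?_
        rw [Finset.mem_filter] at hj
        rw [if_neg (by omega)]
      · intro j hj k hk hjk
        have hj2 := (Finset.mem_filter.1 (Finset.mem_coe.1 hj)).2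
        have hk2 := (Finset.mem_filter.1 (Finset.mem_coe.1 hk)).2
        have hjk' : (i : ℕ) - j = (i : ℕ) - k := hjk
        exact Fin.ext (by omega)
    rw [e1]
    refine Finset.sum_le_sum_of_subset_of_nonneg ?_ fun d _ _ => hc d
    intro d hd
    obtain ⟨j, hj, rfl⟩ := Finset.mem_image.1 hd
    rw [Finset.mem_filter] at hj
    have := hI i hi
    rw [Finset.mem_Icc]
    omega

theorem card_win (K L : ℕ) (h : K ≤ L) :
    (univ.filter fun i : Fin (L + K) => K ≤ (i : ℕ) ∧ (i : ℕ) < L).card = L - K := by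
  have h1 : (univ.filter fun i : Fin (L + K) => K ≤ (i : ℕ) ∧ (i : ℕ) < L).map Fin.valEmbedding =
      Finset.Ico K L := by
    ext x
    simp only [Finset.mem_map, Finset.mem_filter, Finset.mem_univ, true_and,
      Fin.valEmbedding_apply, Finset.mem_Ico]
    constructor
    · rintro ⟨i, hi, rfl⟩
      exact hi
    · intro hx
      exact ⟨⟨x, by omega⟩, hx, rfl⟩
  rw [← Finset.card_map Fin.valEmbedding, h1, Nat.card_Ico]

section main

variable {Ω : Type} [MeasurableSpace Ω] {q : ℕ}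

open Classical in
/-- the inequality for one prime -/
theorem one_prime (h3 : T_PW3) (P : Measure Ω) [IsProbabilityMeasure P] (T : Ω ≃ᵐ Ω)
    (K L p : ℕ) (B : Set (Fin (L + K) → Fin q)) (a a' : Ω → Fin q) (A : Set Ω)
    (mp : MeasurePreserving T P P) (hC : Code K L B) (hKL : K ≤ L) (ha : Measurable a)
    (ha' : Measurable a') (hA : MeasurableSet[Inv T 1] A) :
    ((L : ℝ) - 3 * K) * ∫ ω in A, dm a a' ω ∂P ≤
      P.real (A ∩ {ω | Wd T a (L + K) p ω ∈ B}) + P.real (A ∩ {ω | Wd T a' (L + K) p ω ∈ B}) +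
      2 * ((L : ℝ) - K) * ∑ d ∈ Icc 1 L,
        ∫ ω in A, dm a a' ω * dm a a' (T^[p * d] ω) ∂P := by
  obtain ⟨hAm, hAi⟩ := inv_set hA
  set I := univ.filter fun i : Fin (L + K) => K ≤ (i : ℕ) ∧ (i : ℕ) < L with hI
  set J := univ.filter fun i : Fin (L + K) => ¬ (K ≤ (i : ℕ) ∧ (i : ℕ) < L) with hJ
  have hIc : (I.card : ℝ) = (L : ℝ) - K := by
    rw [hI, card_win K L hKL, Nat.cast_sub hKL]
  have hJc : (J.card : ℝ) = 2 * K := by
    have h1 : I.card + J.card = (univ : Finset (Fin (L + K))).card :=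
      Finset.card_filter_add_card_filter_not (s := (univ : Finset (Fin (L + K))))
        (fun i : Fin (L + K) => K ≤ (i : ℕ) ∧ (i : ℕ) < L)
    rw [Finset.card_univ, Fintype.card_fin] at h1
    have h2 : (I.card : ℝ) + J.card = (L : ℝ) + K := by exact_mod_cast h1
    linarith
  have hdm : Measurable (dm a a') := dm_meas ha ha'
  set D : Fin (L + K) → Ω → ℝ := fun i ω => dm a a' (T^[p * ((i : ℕ) + 1)] ω) with hD
  have hDm : ∀ i, Measurable (D i) := fun i => hdm.comp (T.measurable.iterate _)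
  have hD0 : ∀ i ω, 0 ≤ D i ω := fun i ω => dm_nonneg a a' _
  have hD1 : ∀ i ω, D i ω ≤ 1 := fun i ω => dm_le a a' _
  have hDD : ∀ i ω, D i ω * D i ω = D i ω := fun i ω => by
    rcases dm_01 a a' (T^[p * ((i : ℕ) + 1)] ω) with h | h
    · change dm a a' _ * dm a a' _ = dm a a' _
      rw [h, mul_zero]
    · change dm a a' _ * dm a a' _ = dm a a' _
      rw [h, mul_one]
  have hDi : ∀ i, Integrable (D i) (P.restrict A) := fun i =>
    int_bdd (hDm i) 1 fun ω => abs_le.2 ⟨by linarith [hD0 i ω], hD1 i ω⟩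
  have hDDi : ∀ i j, Integrable (fun ω => D i ω * D j ω) (P.restrict A) := fun i j =>
    int_bdd ((hDm i).mul (hDm j)) 1 fun ω => abs_le.2
      ⟨by linarith [mul_nonneg (hD0 i ω) (hD0 j ω)],
        mul_le_one₀ (hD1 i ω) (hD0 j ω) (hD1 j ω)⟩
  -- the pointwise inequality
  have hpt : ∀ ω, (∑ i ∈ I, D i ω - ∑ i ∈ I, ∑ j ∈ I.filter (fun j => j ≠ i), D i ω * D j ω) -
      ∑ i ∈ J, D i ω ≤ {ω | Wd T a (L + K) p ω ∈ B}.indicator (fun _ => (1 : ℝ)) ω +
        {ω | Wd T a' (L + K) p ω ∈ B}.indicator (fun _ => (1 : ℝ)) ω := by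
    intro ω
    have h := h3 q K L (Wd T a (L + K) p ω) (Wd T a' (L + K) p ω) B hC
    have e1 : ((univ.filter fun i : Fin (L + K) => K ≤ (i : ℕ) ∧ (i : ℕ) < L ∧
        Wd T a (L + K) p ω i ≠ Wd T a' (L + K) p ω i).card : ℝ) = ∑ i ∈ I, D i ω := by
      have : (univ.filter fun i : Fin (L + K) => K ≤ (i : ℕ) ∧ (i : ℕ) < L ∧
          Wd T a (L + K) p ω i ≠ Wd T a' (L + K) p ω i) =
          I.filter fun i => Wd T a (L + K) p ω i ≠ Wd T a' (L + K) p ω i := by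
        ext i
        simp only [hI, Finset.mem_filter, Finset.mem_univ, true_and, and_assoc]
      rw [this, Finset.card_filter, Nat.cast_sum]
      refine Finset.sum_congr rfl fun i _ => ?_
      change (((if a (T^[p * ((i : ℕ) + 1)] ω) ≠ a' (T^[p * ((i : ℕ) + 1)] ω) then 1 else 0 : ℕ) : ℝ)
        = if a (T^[p * ((i : ℕ) + 1)] ω) = a' (T^[p * ((i : ℕ) + 1)] ω) then 0 else 1)
      by_cases hh : a (T^[p * ((i : ℕ) + 1)] ω) = a' (T^[p * ((i : ℕ) + 1)] ω)
      · rw [if_neg (not_not.2 hh), if_pos hh, Nat.cast_zero]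
      · rw [if_pos hh, if_neg hh, Nat.cast_one]
    have e2 : ((univ.filter fun i : Fin (L + K) => ¬ (K ≤ (i : ℕ) ∧ (i : ℕ) < L) ∧
        Wd T a (L + K) p ω i ≠ Wd T a' (L + K) p ω i).card : ℝ) = ∑ i ∈ J, D i ω := by
      have : (univ.filter fun i : Fin (L + K) => ¬ (K ≤ (i : ℕ) ∧ (i : ℕ) < L) ∧
          Wd T a (L + K) p ω i ≠ Wd T a' (L + K) p ω i) =
          J.filter fun i => Wd T a (L + K) p ω i ≠ Wd T a' (L + K) p ω i := by
        ext i
        simp only [hJ, Finset.mem_filter, Finset.mem_univ, true_and]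
      rw [this, Finset.card_filter, Nat.cast_sum]
      refine Finset.sum_congr rfl fun i _ => ?_
      change (((if a (T^[p * ((i : ℕ) + 1)] ω) ≠ a' (T^[p * ((i : ℕ) + 1)] ω) then 1 else 0 : ℕ) : ℝ)
        = if a (T^[p * ((i : ℕ) + 1)] ω) = a' (T^[p * ((i : ℕ) + 1)] ω) then 0 else 1)
      by_cases hh : a (T^[p * ((i : ℕ) + 1)] ω) = a' (T^[p * ((i : ℕ) + 1)] ω)
      · rw [if_neg (not_not.2 hh), if_pos hh, Nat.cast_zero]
      · rw [if_pos hh, if_neg hh, Nat.cast_one]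
    rw [e1, e2] at h
    have e3 : (∑ i ∈ I, D i ω) * (∑ i ∈ I, D i ω - 1) =
        ∑ i ∈ I, ∑ j ∈ I.filter (fun j => j ≠ i), D i ω * D j ω := by
      rw [mul_sub, mul_one, Finset.sum_mul_sum, ← Finset.sum_sub_distrib]
      refine Finset.sum_congr rfl fun i hi => ?_
      have h5 := Finset.sum_filter_add_sum_filter_not I (fun j => j ≠ i)
        (fun j => D i ω * D j ω)
      have h6 : I.filter (fun j => ¬ (j ≠ i)) = {i} := by
        ext j
        simp only [Finset.mem_filter, not_not, Finset.mem_singleton]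
        exact ⟨fun h => h.2, fun h => ⟨h ▸ hi, h⟩⟩
      rw [h6, Finset.sum_singleton, hDD] at h5
      linarith
    rw [e3] at h
    have e4 : {ω | Wd T a (L + K) p ω ∈ B}.indicator (fun _ => (1 : ℝ)) ω =
        if Wd T a (L + K) p ω ∈ B then 1 else 0 := by
      rw [Set.indicator_apply]
      rfl
    have e5 : {ω | Wd T a' (L + K) p ω ∈ B}.indicator (fun _ => (1 : ℝ)) ω =
        if Wd T a' (L + K) p ω ∈ B then 1 else 0 := by
      rw [Set.indicator_apply]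
      rfl
    rw [e4, e5]
    exact h
  -- integration
  have hBm : MeasurableSet {ω | Wd T a (L + K) p ω ∈ B} := Wd_meas T ha (L + K) p B
  have hBm' : MeasurableSet {ω | Wd T a' (L + K) p ω ∈ B} := Wd_meas T ha' (L + K) p B
  have i1 : Integrable (fun ω => ∑ i ∈ I, D i ω) (P.restrict A) :=
    integrable_finsetSum _ fun i _ => hDi i
  have i2 : Integrable (fun ω => ∑ i ∈ I, ∑ j ∈ I.filter (fun j => j ≠ i), D i ω * D j ω)
      (P.restrict A) :=
    integrable_finsetSum _ fun i _ => integrable_finsetSum _ fun j _ => hDDi i j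
  have i3 : Integrable (fun ω => ∑ i ∈ J, D i ω) (P.restrict A) :=
    integrable_finsetSum _ fun i _ => hDi i
  have i4 : Integrable ({ω | Wd T a (L + K) p ω ∈ B}.indicator (fun _ => (1 : ℝ)))
      (P.restrict A) := (integrable_const 1).indicator hBm
  have i5 : Integrable ({ω | Wd T a' (L + K) p ω ∈ B}.indicator (fun _ => (1 : ℝ)))
      (P.restrict A) := (integrable_const 1).indicator hBm'
  have hint := integral_mono (μ := P.restrict A) ((i1.sub i2).sub i3) (i4.add i5) hpt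
  have r1 : ∫ ω in A, ((∑ i ∈ I, D i ω -
      ∑ i ∈ I, ∑ j ∈ I.filter (fun j => j ≠ i), D i ω * D j ω) - ∑ i ∈ J, D i ω) ∂P =
      (∑ i ∈ I, ∫ ω in A, D i ω ∂P -
        ∑ i ∈ I, ∑ j ∈ I.filter (fun j => j ≠ i), ∫ ω in A, D i ω * D j ω ∂P) -
        ∑ i ∈ J, ∫ ω in A, D i ω ∂P := by
    have r1a : ∫ ω in A, ((∑ i ∈ I, D i ω -
        ∑ i ∈ I, ∑ j ∈ I.filter (fun j => j ≠ i), D i ω * D j ω) - ∑ i ∈ J, D i ω) ∂P =
        (∫ ω in A, (∑ i ∈ I, D i ω -
          ∑ i ∈ I, ∑ j ∈ I.filter (fun j => j ≠ i), D i ω * D j ω) ∂P) -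
          ∫ ω in A, ∑ i ∈ J, D i ω ∂P := integral_sub (i1.sub i2) i3
    have r1b : ∫ ω in A, (∑ i ∈ I, D i ω -
          ∑ i ∈ I, ∑ j ∈ I.filter (fun j => j ≠ i), D i ω * D j ω) ∂P =
        (∫ ω in A, ∑ i ∈ I, D i ω ∂P) -
          ∫ ω in A, ∑ i ∈ I, ∑ j ∈ I.filter (fun j => j ≠ i), D i ω * D j ω ∂P :=
      integral_sub i1 i2
    rw [r1a, r1b, integral_finsetSum _ fun i _ => hDi i,
      integral_finsetSum _ fun i _ => hDi i,
      integral_finsetSum _ fun i _ => integrable_finsetSum _ fun j _ => hDDi i j]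
    refine congrArg (fun x => _ - x - _) (Finset.sum_congr rfl fun i _ => ?_)
    rw [integral_finsetSum _ fun j _ => hDDi i j]
  have r2 : ∫ ω in A, ({ω | Wd T a (L + K) p ω ∈ B}.indicator (fun _ => (1 : ℝ)) ω +
      {ω | Wd T a' (L + K) p ω ∈ B}.indicator (fun _ => (1 : ℝ)) ω) ∂P =
      P.real (A ∩ {ω | Wd T a (L + K) p ω ∈ B}) + P.real (A ∩ {ω | Wd T a' (L + K) p ω ∈ B}) := by
    rw [integral_add i4 i5, integral_indicator hBm, integral_indicator hBm',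
      setIntegral_const, setIntegral_const, smul_eq_mul, smul_eq_mul, mul_one, mul_one,
      measureReal_restrict_apply hBm, measureReal_restrict_apply hBm', Set.inter_comm A,
      Set.inter_comm A]
  have r3 : ∀ i, ∫ ω in A, D i ω ∂P = ∫ ω in A, dm a a' ω ∂P := fun i =>
    int_inv mp hA (dm a a') hdm _
  set c : ℕ → ℝ := fun d => ∫ ω in A, dm a a' ω * dm a a' (T^[p * d] ω) ∂P with hc
  have hc0 : ∀ d, 0 ≤ c d := fun d => integral_nonneg fun ω =>
    mul_nonneg (dm_nonneg a a' _) (dm_nonneg a a' _)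
  have hlt : ∀ i j : Fin (L + K), (i : ℕ) < j →
      ∫ ω in A, D i ω * D j ω ∂P = c ((j : ℕ) - i) := by
    intro i j hij
    have h1 := int_inv mp hA (fun ω => dm a a' ω * dm a a' (T^[p * ((j : ℕ) - i)] ω))
      (hdm.mul (hdm.comp (T.measurable.iterate _))) (p * ((i : ℕ) + 1))
    have h2 : ∀ ω, T^[p * ((j : ℕ) - i)] (T^[p * ((i : ℕ) + 1)] ω) =
        T^[p * ((j : ℕ) + 1)] ω := by
      intro ω
      rw [← Function.iterate_add_apply]
      have : p * ((j : ℕ) - i) + p * ((i : ℕ) + 1) = p * ((j : ℕ) + 1) := by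
        rw [← mul_add]
        congr 1
        omega
      rw [this]
    simp only [h2] at h1
    exact h1
  have r4 : ∀ i ∈ I, ∑ j ∈ I.filter (fun j => j ≠ i), ∫ ω in A, D i ω * D j ω ∂P ≤
      2 * ∑ d ∈ Icc 1 L, c d := by
    intro i hi
    have h1 := pair_sum (L + K) I L (fun i hi => by
      rw [hI, Finset.mem_filter] at hi
      exact hi.2.2) c hc0 i hi
    refine le_trans (le_of_eq (Finset.sum_congr rfl fun j hj => ?_)) h1
    rw [Finset.mem_filter] at hj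
    rcases lt_trichotomy (i : ℕ) j with h | h | h
    · rw [if_pos h]
      exact hlt i j h
    · exact absurd (Fin.ext h.symm) hj.2
    · rw [if_neg (by omega), ← hlt j i h]
      exact integral_congr_ae (Filter.Eventually.of_forall fun ω => mul_comm _ _)
  have r5 : ∑ i ∈ I, ∑ j ∈ I.filter (fun j => j ≠ i), ∫ ω in A, D i ω * D j ω ∂P ≤
      2 * ((L : ℝ) - K) * ∑ d ∈ Icc 1 L, c d := by
    refine (Finset.sum_le_sum r4).trans (le_of_eq ?_)
    rw [Finset.sum_const, nsmul_eq_mul, hIc]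
    ring
  have r6 : ∑ i ∈ I, ∫ ω in A, D i ω ∂P = ((L : ℝ) - K) * ∫ ω in A, dm a a' ω ∂P := by
    rw [Finset.sum_congr rfl fun i _ => r3 i, Finset.sum_const, nsmul_eq_mul, hIc]
  have r7 : ∑ i ∈ J, ∫ ω in A, D i ω ∂P = (2 * K) * ∫ ω in A, dm a a' ω ∂P := by
    rw [Finset.sum_congr rfl fun i _ => r3 i, Finset.sum_const, nsmul_eq_mul, hJc]
  have hint' : (∑ i ∈ I, ∫ ω in A, D i ω ∂P -
        ∑ i ∈ I, ∑ j ∈ I.filter (fun j => j ≠ i), ∫ ω in A, D i ω * D j ω ∂P) -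
        ∑ i ∈ J, ∫ ω in A, D i ω ∂P ≤
      P.real (A ∩ {ω | Wd T a (L + K) p ω ∈ B}) + P.real (A ∩ {ω | Wd T a' (L + K) p ω ∈ B}) := by
    rw [← r1, ← r2]
    exact hint
  rw [r6, r7] at hint'
  nlinarith [r5, hint']

end main

theorem pf_PIR (h3 : T_PW3) (hU : Pool.Agent.H67.AG.T_UL) (_hN : Pool.Agent.H67.AG.T_PN) :
    T_PIR := by
  intro Ω _ P _ T U s q K L Bad a a' A mp hU' hs hC hKL ha ha' hA
  obtain ⟨hAm, hAi⟩ := inv_set hA
  have hdm : Measurable (dm a a') := dm_meas ha ha'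
  set mA : ℝ := ∫ ω in A, dm a a' ω ∂P with hmA
  set Fa : ℕ → ℝ := fun p => s p * P.real (A ∩ {ω | Wd T a (L + K) p ω ∈ Bad p}) with hFa
  set Fa' : ℕ → ℝ := fun p => s p * P.real (A ∩ {ω | Wd T a' (L + K) p ω ∈ Bad p}) with hFa'
  set c : ℕ → ℕ → ℝ := fun d p => ∫ ω in A, dm a a' ω * dm a a' (T^[p * d] ω) ∂P with hc
  have hs0 : ∀ p, 0 ≤ s p := fun p => by rcases hs p with h | h <;> rw [h]; norm_num
  have hs1 : ∀ p, s p ≤ 1 := fun p => by rcases hs p with h | h <;> rw [h]; norm_num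
  have hLK : (0 : ℝ) ≤ (L : ℝ) - K := by
    have : (K : ℝ) ≤ L := by exact_mod_cast hKL
    linarith
  have hc0 : ∀ d p, 0 ≤ c d p := fun d p => integral_nonneg fun ω =>
    mul_nonneg (dm_nonneg a a' _) (dm_nonneg a a' _)
  have hc1 : ∀ d p, c d p ≤ 1 := by
    intro d p
    have h1 : c d p ≤ ∫ _ω in A, (1 : ℝ) ∂P := by
      refine integral_mono (int_bdd (hdm.mul (hdm.comp (T.measurable.iterate _))) 1 fun ω =>
        abs_le.2 ⟨?_, ?_⟩) (integrable_const 1) fun ω => ?_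
      · have := mul_nonneg (dm_nonneg a a' ω) (dm_nonneg a a' (T^[p * d] ω))
        change -1 ≤ dm a a' ω * dm a a' (T^[p * d] ω)
        linarith
      · exact mul_le_one₀ (dm_le a a' _) (dm_nonneg a a' _) (dm_le a a' _)
      · exact mul_le_one₀ (dm_le a a' _) (dm_nonneg a a' _) (dm_le a a' _)
    refine h1.trans ?_
    rw [setIntegral_const, smul_eq_mul, mul_one]
    exact measureReal_le_one
  have hP0 : ∀ E : Set Ω, 0 ≤ P.real E := fun E => measureReal_nonneg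
  have hP1 : ∀ E : Set Ω, P.real E ≤ 1 := fun E => measureReal_le_one
  -- one prime with the flag
  have h1 : ∀ p, (((L : ℝ) - 3 * K) * mA) * s p ≤ Fa p + Fa' p +
      (2 * ((L : ℝ) - K)) * ∑ d ∈ Icc 1 L, c d p := by
    intro p
    have hsum : 0 ≤ (2 * ((L : ℝ) - K)) * ∑ d ∈ Icc 1 L, c d p :=
      mul_nonneg (by linarith) (Finset.sum_nonneg fun d _ => hc0 d p)
    rcases hs p with h | h
    · simp only [hFa, hFa', h, mul_zero, zero_mul, zero_add]
      exact hsum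
    · simp only [hFa, hFa', h, mul_one, one_mul]
      exact one_prime h3 P T K L p (Bad p) a a' A mp (hC p) hKL ha ha' hA
  have bs : ∀ m, |avgP 2 m s| ≤ 1 := fun m => avg_abs 2 m s 1 zero_le_one fun p =>
    abs_le.2 ⟨by linarith [hs0 p], hs1 p⟩
  have bFa : ∀ m, |avgP 2 m Fa| ≤ 1 := fun m => avg_abs 2 m Fa 1 zero_le_one fun p =>
    abs_le.2 ⟨by linarith [mul_nonneg (hs0 p) (hP0 (A ∩ {ω | Wd T a (L + K) p ω ∈ Bad p}))],
      mul_le_one₀ (hs1 p) (hP0 _) (hP1 _)⟩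
  have bFa' : ∀ m, |avgP 2 m Fa'| ≤ 1 := fun m => avg_abs 2 m Fa' 1 zero_le_one fun p =>
    abs_le.2 ⟨by linarith [mul_nonneg (hs0 p) (hP0 (A ∩ {ω | Wd T a' (L + K) p ω ∈ Bad p}))],
      mul_le_one₀ (hs1 p) (hP0 _) (hP1 _)⟩
  have bc : ∀ d m, |avgP 2 m (c d)| ≤ 1 := fun d m => avg_abs 2 m (c d) 1 zero_le_one fun p =>
    abs_le.2 ⟨by linarith [hc0 d p], hc1 d p⟩
  have h2 : ∀ m, (((L : ℝ) - 3 * K) * mA) * avgP 2 m s ≤ (avgP 2 m Fa + avgP 2 m Fa') +
      (2 * ((L : ℝ) - K)) * ∑ d ∈ Icc 1 L, avgP 2 m (c d) := by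
    intro m
    have h3 := avg_mono 2 m _ _ h1
    rw [avg_mul, avg_add, avg_add, avg_mul, avg_sum] at h3
    exact h3
  obtain ⟨hu1, hu2, hu3, hu4, hu5⟩ := hU U
  obtain ⟨⟨C', hC'⟩, hsumul⟩ := ul_sum hU U (Icc 1 L) (fun d m => avgP 2 m (c d)) 1 bc
  have b1 : ∃ C, ∀ m, |(((L : ℝ) - 3 * K) * mA) * avgP 2 m s| ≤ C :=
    ⟨|((L : ℝ) - 3 * K) * mA| * 1, fun m => by
      rw [abs_mul]
      exact mul_le_mul_of_nonneg_left (bs m) (abs_nonneg _)⟩
  have b2 : ∃ C, ∀ m, |avgP 2 m Fa + avgP 2 m Fa'| ≤ C :=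
    ⟨1 + 1, fun m => (abs_add_le _ _).trans (add_le_add (bFa m) (bFa' m))⟩
  have b3 : ∃ C, ∀ m, |(2 * ((L : ℝ) - K)) * ∑ d ∈ Icc 1 L, avgP 2 m (c d)| ≤ C :=
    ⟨|2 * ((L : ℝ) - K)| * C', fun m => by
      rw [abs_mul]
      exact mul_le_mul_of_nonneg_left (hC' m) (abs_nonneg _)⟩
  have b4 : ∃ C, ∀ m, |(avgP 2 m Fa + avgP 2 m Fa') +
      (2 * ((L : ℝ) - K)) * ∑ d ∈ Icc 1 L, avgP 2 m (c d)| ≤ C := by
    obtain ⟨C2, h2'⟩ := b2
    obtain ⟨C3, h3'⟩ := b3
    exact ⟨C2 + C3, fun m => (abs_add_le _ _).trans (add_le_add (h2' m) (h3' m))⟩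
  have h4 := hu2 (fun m => (((L : ℝ) - 3 * K) * mA) * avgP 2 m s)
    (fun m => (avgP 2 m Fa + avgP 2 m Fa') +
      (2 * ((L : ℝ) - K)) * ∑ d ∈ Icc 1 L, avgP 2 m (c d)) b1 b4
    (Filter.Eventually.of_forall h2)
  rw [hu4 (fun m => avgP 2 m s) _ ⟨1, bs⟩,
    hu3 (fun m => avgP 2 m Fa + avgP 2 m Fa') _ b2 b3,
    hu3 (fun m => avgP 2 m Fa) (fun m => avgP 2 m Fa') ⟨1, bFa⟩ ⟨1, bFa'⟩,
    hu4 (fun m => ∑ d ∈ Icc 1 L, avgP 2 m (c d)) _ ⟨C', hC'⟩, hsumul] at h4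
  have h5 : ds U s * ((L : ℝ) - 3 * K) * mA = (((L : ℝ) - 3 * K) * mA) * ds U s := by ring
  rw [h5]
  exact h4

end Pool.Agent.H67.LF
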