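import Pool.Agent.H91.LF.Defs

/-!
Module SUP of the project LF on `MP_c59857_nt`: uniformity in the frequency.
-/

set_option autoImplicit false

open Finset Filter Topology

namespace Pool.Agent.H67.LF

open Pool.Agent.H24.MR (lam)
open Pool.Agent.H91.LF

/-- The exponential `e(β y)`. -/
noncomputable def ex (β : ℝ) (y : ℕ) : ℂ := Complex.exp (2 * Real.pi * Complex.I * (β * y))

/-- The window sum. -/
noncomputable def win (H : ℕ) (β : ℝ) (n : ℕ) : ℂ :=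
  ∑ y ∈ Finset.range H, (lam (n + y) : ℂ) * ex β y

/-- The sum of the squares of the window sums. -/
noncomputable def tot (H : ℕ) (β : ℝ) (N : ℕ) : ℝ := ∑ n ∈ Finset.range N, ‖win H β n‖ ^ 2

theorem abs_lam_le (n : ℕ) : |lam n| ≤ 1 := by
  unfold lam
  rw [abs_pow]
  simp

theorem norm_ex (β : ℝ) (y : ℕ) : ‖ex β y‖ = 1 := by
  unfold ex
  have h : (2 * Real.pi * Complex.I * (β * y) : ℂ) = ((2 * Real.pi * (β * y) : ℝ) : ℂ) * Complex.I := by
    push_cast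
    ring
  rw [h, Complex.norm_exp_ofReal_mul_I]

theorem ex_add (β : ℝ) (a y : ℕ) : ex β (a + y) = ex β a * ex β y := by
  unfold ex
  rw [← Complex.exp_add]
  congr 1
  push_cast
  ring

theorem ex_fract (β : ℝ) (y : ℕ) : ex (Int.fract β) y = ex β y := by
  unfold ex
  have h : (2 * Real.pi * Complex.I * (β * y) : ℂ) =
      2 * Real.pi * Complex.I * ((Int.fract β : ℝ) * y) +
        ((⌊β⌋ * y : ℤ) : ℂ) * (2 * Real.pi * Complex.I) := by
    have h1 : (β : ℂ) = ((⌊β⌋ : ℤ) : ℂ) + ((Int.fract β : ℝ) : ℂ) := by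
      have := Int.floor_add_fract β
      exact_mod_cast this.symm
    rw [h1]
    push_cast
    ring
  rw [h, Complex.exp_add, Complex.exp_int_mul_two_pi_mul_I, mul_one]

theorem norm_ex_sub (β β' : ℝ) (y : ℕ) : ‖ex β y - ex β' y‖ ≤ 2 * Real.pi * |β - β'| * y := by
  have h : ex β y = ex β' y * Complex.exp (Complex.I * ((2 * Real.pi * ((β - β') * y) : ℝ) : ℂ)) := by
    unfold ex
    rw [← Complex.exp_add]
    congr 1
    push_cast
    ring
  have h2 : ex β y - ex β' y =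
      ex β' y * (Complex.exp (Complex.I * ((2 * Real.pi * ((β - β') * y) : ℝ) : ℂ)) - 1) := by
    rw [h]
    ring
  rw [h2, norm_mul, norm_ex, one_mul]
  refine (Real.norm_exp_I_mul_ofReal_sub_one_le).trans ?_
  rw [Real.norm_eq_abs, abs_mul, abs_mul, abs_mul, abs_of_nonneg (by norm_num : (0 : ℝ) ≤ 2),
    abs_of_nonneg Real.pi_pos.le, Nat.abs_cast]
  exact le_of_eq (by ring)

theorem norm_win_sub (h : ℕ) (β β' : ℝ) (n : ℕ) :
    ‖win h β n - win h β' n‖ ≤ 2 * Real.pi * |β - β'| * h ^ 2 := by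
  unfold win
  rw [← Finset.sum_sub_distrib]
  refine (norm_sum_le _ _).trans ?_
  have h1 : ∀ y ∈ Finset.range h, ‖(lam (n + y) : ℂ) * ex β y - (lam (n + y) : ℂ) * ex β' y‖ ≤
      2 * Real.pi * |β - β'| * h := by
    intro y hy
    rw [← mul_sub, norm_mul]
    have h2 : ‖(lam (n + y) : ℂ)‖ ≤ 1 := by
      rw [Complex.norm_real, Real.norm_eq_abs]
      exact abs_lam_le _
    have h3 := norm_ex_sub β β' y
    have h4 : (y : ℝ) ≤ h := by
      exact_mod_cast (Finset.mem_range.1 hy).le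
    calc ‖(lam (n + y) : ℂ)‖ * ‖ex β y - ex β' y‖ ≤ 1 * (2 * Real.pi * |β - β'| * y) := by
          apply mul_le_mul h2 h3 (norm_nonneg _) zero_le_one
      _ ≤ 2 * Real.pi * |β - β'| * h := by
          rw [one_mul]
          apply mul_le_mul_of_nonneg_left h4
          positivity
  refine (Finset.sum_le_sum h1).trans ?_
  rw [Finset.sum_const, Finset.card_range, nsmul_eq_mul]
  exact le_of_eq (by ring)

theorem tot_near (h : ℕ) (β β' : ℝ) (N : ℕ) :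
    tot h β N ≤ 2 * tot h β' N + 2 * N * (2 * Real.pi * |β - β'| * h ^ 2) ^ 2 := by
  unfold tot
  have h1 : ∀ n ∈ Finset.range N, ‖win h β n‖ ^ 2 ≤
      2 * ‖win h β' n‖ ^ 2 + 2 * (2 * Real.pi * |β - β'| * h ^ 2) ^ 2 := by
    intro n _
    have h2 := norm_win_sub h β β' n
    have h3 : ‖win h β n‖ ≤ ‖win h β' n‖ + ‖win h β n - win h β' n‖ := by
      have := norm_add_le (win h β' n) (win h β n - win h β' n)
      simpa using this
    have h4 : 0 ≤ ‖win h β n‖ := norm_nonneg _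
    have h5 : 0 ≤ ‖win h β' n‖ := norm_nonneg _
    have h6 : 0 ≤ ‖win h β n - win h β' n‖ := norm_nonneg _
    set A := ‖win h β n‖
    set B := ‖win h β' n‖
    set D := 2 * Real.pi * |β - β'| * (h : ℝ) ^ 2
    have h7 : A ≤ B + D := by linarith
    have h8 : A ^ 2 ≤ (B + D) ^ 2 := by
      apply pow_le_pow_left₀ h4 h7
    nlinarith [sq_nonneg (B - D)]
  refine (Finset.sum_le_sum h1).trans ?_
  rw [Finset.sum_add_distrib, Finset.sum_const, Finset.card_range, nsmul_eq_mul, ← Finset.mul_sum]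
  exact le_of_eq (by ring)

theorem win_mul (h : ℕ) (β : ℝ) (n q : ℕ) :
    win (q * h) β n = ∑ i ∈ Finset.range q, ex β (i * h) * win h β (n + i * h) := by
  induction q with
  | zero => simp [win]
  | succ q ih =>
    rw [Finset.sum_range_succ, ← ih]
    unfold win
    rw [add_mul, one_mul, Finset.sum_range_add, Finset.mul_sum]
    congr 1
    apply Finset.sum_congr rfl
    intro y _
    rw [ex_add, add_assoc]
    ring

theorem norm_win_le (h H : ℕ) (hh : 0 < h) (β : ℝ) (n : ℕ) :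
    ‖win H β n‖ ≤ ∑ i ∈ Finset.range (H / h), ‖win h β (n + i * h)‖ + h := by
  have h1 : win H β n = win (H / h * h) β n +
      ∑ y ∈ Finset.range (H % h), (lam (n + (H / h * h + y)) : ℂ) * ex β (H / h * h + y) := by
    unfold win
    rw [← Finset.sum_range_add (fun y => (lam (n + y) : ℂ) * ex β y) (H / h * h) (H % h)]
    congr 2
    rw [mul_comm]
    exact (Nat.div_add_mod H h).symm
  rw [h1]
  refine (norm_add_le _ _).trans ?_
  apply add_le_add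
  · rw [win_mul]
    refine (norm_sum_le _ _).trans ?_
    apply Finset.sum_le_sum
    intro i _
    rw [norm_mul, norm_ex, one_mul]
  · refine (norm_sum_le _ _).trans ?_
    have h2 : ∀ y ∈ Finset.range (H % h),
        ‖(lam (n + (H / h * h + y)) : ℂ) * ex β (H / h * h + y)‖ ≤ 1 := by
      intro y _
      rw [norm_mul, norm_ex, mul_one, Complex.norm_real, Real.norm_eq_abs]
      exact abs_lam_le _
    refine (Finset.sum_le_sum h2).trans ?_
    rw [Finset.sum_const, Finset.card_range, nsmul_eq_mul, mul_one]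
    exact_mod_cast (Nat.mod_lt H hh).le

theorem sq_win_le (h H : ℕ) (hh : 0 < h) (β : ℝ) (n : ℕ) :
    ‖win H β n‖ ^ 2 ≤ 2 * (H / h : ℕ) * ∑ i ∈ Finset.range (H / h), ‖win h β (n + i * h)‖ ^ 2 +
      2 * (h : ℝ) ^ 2 := by
  have h1 := norm_win_le h H hh β n
  have h2 : (∑ i ∈ Finset.range (H / h), ‖win h β (n + i * h)‖) ^ 2 ≤
      ((H / h : ℕ) : ℝ) * ∑ i ∈ Finset.range (H / h), ‖win h β (n + i * h)‖ ^ 2 := by
    have := sq_sum_le_card_mul_sum_sq (s := Finset.range (H / h))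
      (f := fun i => ‖win h β (n + i * h)‖)
    rwa [Finset.card_range] at this
  have h3 : 0 ≤ ‖win H β n‖ := norm_nonneg _
  set A := ‖win H β n‖
  set B := ∑ i ∈ Finset.range (H / h), ‖win h β (n + i * h)‖
  have h8 : A ^ 2 ≤ (B + h) ^ 2 := pow_le_pow_left₀ h3 h1 2
  nlinarith [sq_nonneg (B - h)]

theorem tot_mono (h : ℕ) (β : ℝ) {N M : ℕ} (hNM : N ≤ M) : tot h β N ≤ tot h β M := by
  unfold tot
  apply Finset.sum_le_sum_of_subset_of_nonneg
  · exact Finset.range_mono hNM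
  · intro i _ _
    positivity

theorem shift_le (h : ℕ) (β : ℝ) (N a : ℕ) :
    ∑ n ∈ Finset.range N, ‖win h β (n + a)‖ ^ 2 ≤ tot h β (N + a) := by
  unfold tot
  rw [add_comm N a, Finset.sum_range_add]
  have h1 : 0 ≤ ∑ n ∈ Finset.range a, ‖win h β n‖ ^ 2 := by positivity
  have h2 : ∑ n ∈ Finset.range N, ‖win h β (n + a)‖ ^ 2 =
      ∑ n ∈ Finset.range N, ‖win h β (a + n)‖ ^ 2 := by
    apply Finset.sum_congr rfl
    intro n _
    rw [add_comm]
  linarith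

theorem tot_le (h H : ℕ) (hh : 0 < h) (β : ℝ) (N : ℕ) :
    tot H β N ≤ 2 * ((H / h : ℕ) : ℝ) ^ 2 * tot h β (N + H) + 2 * (h : ℝ) ^ 2 * N := by
  have h1 : tot H β N ≤ ∑ n ∈ Finset.range N,
      (2 * (H / h : ℕ) * ∑ i ∈ Finset.range (H / h), ‖win h β (n + i * h)‖ ^ 2 +
      2 * (h : ℝ) ^ 2) := by
    unfold tot
    apply Finset.sum_le_sum
    intro n _
    exact sq_win_le h H hh β n
  rw [Finset.sum_add_distrib, Finset.sum_const, Finset.card_range, nsmul_eq_mul,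
    ← Finset.mul_sum, Finset.sum_comm] at h1
  have h2 : ∑ i ∈ Finset.range (H / h), ∑ n ∈ Finset.range N, ‖win h β (n + i * h)‖ ^ 2 ≤
      ∑ i ∈ Finset.range (H / h), tot h β (N + H) := by
    apply Finset.sum_le_sum
    intro i hi
    refine (shift_le h β N (i * h)).trans (tot_mono h β ?_)
    have h3 : i * h ≤ H / h * h := Nat.mul_le_mul_right h (Finset.mem_range.1 hi).le
    have h4 : H / h * h ≤ H := Nat.div_mul_le_self H h
    omega
  rw [Finset.sum_const, Finset.card_range, nsmul_eq_mul] at h2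
  have h5 : (0 : ℝ) ≤ 2 * ((H / h : ℕ) : ℝ) := by positivity
  have h6 := mul_le_mul_of_nonneg_left h2 h5
  refine h1.trans ?_
  nlinarith

/-- The local statement. -/
theorem loc (β₀ : ℝ) (hb : ∀ η : ℝ, 0 < η → ∃ H₀ : ℕ, ∀ H, H₀ ≤ H → ∃ N₀ : ℕ, ∀ N, N₀ ≤ N →
    tot H β₀ N ≤ η * H ^ 2 * N) (η : ℝ) (hη : 0 < η) :
    ∃ c : ℝ, 0 < c ∧ ∃ H₀ : ℕ, ∀ H, H₀ ≤ H → ∃ N₀ : ℕ, ∀ N, N₀ ≤ N → ∀ β : ℝ, |β - β₀| < c →
      tot H β N ≤ η * H ^ 2 * N := by
  obtain ⟨H₀, hH₀⟩ := hb (η / 32) (by positivity)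
  set h : ℕ := max H₀ 1 with hh
  have hpos : 0 < h := lt_of_lt_of_le one_pos (le_max_right _ _)
  have hposR : (0 : ℝ) < h := by exact_mod_cast hpos
  obtain ⟨N₀, hN₀⟩ := hH₀ h (le_max_left _ _)
  have hs : 0 < Real.sqrt η := Real.sqrt_pos.2 hη
  have hss : Real.sqrt η ^ 2 = η := Real.sq_sqrt hη.le
  refine ⟨Real.sqrt η / (64 * h), by positivity, ⌈2 * (h : ℝ) / Real.sqrt η⌉₊, ?_⟩
  intro H hH
  refine ⟨max N₀ H, ?_⟩
  intro N hN β hβ
  have hN1 : N₀ ≤ N := (le_max_left _ _).trans hN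
  have hN2 : H ≤ N := (le_max_right _ _).trans hN
  have key : ∀ M, N₀ ≤ M → tot h β M ≤ η / 8 * h ^ 2 * M := by
    intro M hM
    have h1 := tot_near h β β₀ M
    have h2 := hN₀ M hM
    have h3 : (2 * Real.pi * |β - β₀| * (h : ℝ) ^ 2) ^ 2 ≤ η / 32 * h ^ 2 := by
      have h4 : 2 * Real.pi * |β - β₀| * (h : ℝ) ^ 2 ≤
          2 * Real.pi * (Real.sqrt η / (64 * h)) * (h : ℝ) ^ 2 := by
        have : 0 ≤ Real.pi := Real.pi_pos.le
        gcongr
      have h5 : 2 * Real.pi * (Real.sqrt η / (64 * h)) * (h : ℝ) ^ 2 =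
          Real.pi / 32 * Real.sqrt η * h := by
        field_simp
        ring
      rw [h5] at h4
      have h6 : Real.pi / 32 * Real.sqrt η * h ≤ 1 / 8 * Real.sqrt η * h := by
        have : Real.pi / 32 ≤ 1 / 8 := by
          have := Real.pi_le_four
          linarith
        gcongr
      have h7 : 0 ≤ 2 * Real.pi * |β - β₀| * (h : ℝ) ^ 2 := by
        have : 0 ≤ Real.pi := Real.pi_pos.le
        positivity
      have h8 := pow_le_pow_left₀ h7 (h4.trans h6) 2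
      refine h8.trans ?_
      have h9 : (1 / 8 * Real.sqrt η * (h : ℝ)) ^ 2 = 1 / 64 * η * h ^ 2 := by
        rw [mul_pow, mul_pow, hss]
        norm_num
      rw [h9]
      have : 0 ≤ η * (h : ℝ) ^ 2 := by positivity
      nlinarith
    have h4 : (0 : ℝ) ≤ M := Nat.cast_nonneg _
    have h5 : 2 * (M : ℝ) * (2 * Real.pi * |β - β₀| * (h : ℝ) ^ 2) ^ 2 ≤
        2 * (M : ℝ) * (η / 32 * h ^ 2) := by
      gcongr
    nlinarith
  have hM := key (N + H) (by omega)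
  have h1 := tot_le h H hpos β N
  have hq : ((H / h : ℕ) : ℝ) * h ≤ H := by
    exact_mod_cast Nat.div_mul_le_self H h
  have hq2 : (((H / h : ℕ) : ℝ) * h) ^ 2 ≤ (H : ℝ) ^ 2 := by
    apply pow_le_pow_left₀ (by positivity) hq
  have hH2 : 2 * (h : ℝ) ≤ Real.sqrt η * H := by
    have : 2 * (h : ℝ) / Real.sqrt η ≤ H := (Nat.le_ceil _).trans (by exact_mod_cast hH)
    rw [div_le_iff₀ hs] at this
    linarith
  have hH3 : (2 * (h : ℝ)) ^ 2 ≤ η * H ^ 2 := by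
    have := pow_le_pow_left₀ (by positivity) hH2 2
    rwa [mul_pow (Real.sqrt η), hss] at this
  have hcast : ((N + H : ℕ) : ℝ) ≤ 2 * N := by
    have : (H : ℝ) ≤ N := by exact_mod_cast hN2
    push_cast
    linarith
  have hN0 : (0 : ℝ) ≤ N := Nat.cast_nonneg _
  have h2 : 2 * ((H / h : ℕ) : ℝ) ^ 2 * tot h β (N + H) ≤
      2 * ((H / h : ℕ) : ℝ) ^ 2 * (η / 8 * h ^ 2 * (N + H : ℕ)) := by
    gcongr
  have h3 : 2 * ((H / h : ℕ) : ℝ) ^ 2 * (η / 8 * h ^ 2 * (N + H : ℕ)) =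
      η / 4 * ((((H / h : ℕ) : ℝ) * h) ^ 2) * (N + H : ℕ) := by ring
  have h4 : η / 4 * ((((H / h : ℕ) : ℝ) * h) ^ 2) * (N + H : ℕ) ≤ η / 4 * (H : ℝ) ^ 2 * (2 * N) := by
    gcongr
  have h5 : 2 * (h : ℝ) ^ 2 * N ≤ η / 2 * H ^ 2 * N := by
    have : 2 * (h : ℝ) ^ 2 ≤ η / 2 * H ^ 2 := by nlinarith
    gcongr
  nlinarith

theorem tot_fract (H : ℕ) (β : ℝ) (N : ℕ) : tot H (Int.fract β) N = tot H β N := by
  unfold tot win
  simp_rw [ex_fract]

theorem sup_main (hk : StatementKAT) (hr : StatementRAT) : StatementSUP := by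
  have hb : ∀ β₀ : ℝ, ∀ η : ℝ, 0 < η → ∃ H₀ : ℕ, ∀ H, H₀ ≤ H → ∃ N₀ : ℕ, ∀ N, N₀ ≤ N →
      tot H β₀ N ≤ η * H ^ 2 * N := by
    intro β₀ η hη
    by_cases h : Irrational β₀
    · exact hk β₀ η h hη
    · unfold Irrational at h
      rw [not_not] at h
      obtain ⟨r, rfl⟩ := h
      exact hr r η hη
  intro η hη
  have hc : IsCompact (Set.Icc (0 : ℝ) 1) := isCompact_Icc
  have main : ∃ H₀ : ℕ, ∀ H, H₀ ≤ H → ∃ N₀ : ℕ, ∀ N, N₀ ≤ N → ∀ β ∈ Set.Icc (0 : ℝ) 1,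
      tot H β N ≤ η * H ^ 2 * N := by
    refine hc.induction_on (p := fun s => ∃ H₀ : ℕ, ∀ H, H₀ ≤ H → ∃ N₀ : ℕ, ∀ N, N₀ ≤ N →
      ∀ β ∈ s, tot H β N ≤ η * H ^ 2 * N) ?_ ?_ ?_ ?_
    · exact ⟨0, fun H _ => ⟨0, fun N _ β hβ => absurd hβ (Set.notMem_empty β)⟩⟩
    · rintro s t hst ⟨H₀, hH₀⟩
      refine ⟨H₀, fun H hH => ?_⟩
      obtain ⟨N₀, hN₀⟩ := hH₀ H hH
      exact ⟨N₀, fun N hN β hβ => hN₀ N hN β (hst hβ)⟩
    · rintro s t ⟨H₀, hH₀⟩ ⟨H₁, hH₁⟩
      refine ⟨max H₀ H₁, fun H hH => ?_⟩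
      obtain ⟨N₀, hN₀⟩ := hH₀ H ((le_max_left _ _).trans hH)
      obtain ⟨N₁, hN₁⟩ := hH₁ H ((le_max_right _ _).trans hH)
      refine ⟨max N₀ N₁, fun N hN β hβ => ?_⟩
      rcases hβ with hβ | hβ
      · exact hN₀ N ((le_max_left _ _).trans hN) β hβ
      · exact hN₁ N ((le_max_right _ _).trans hN) β hβ
    · intro β₀ _
      obtain ⟨c, hc0, H₀, hH₀⟩ := loc β₀ (hb β₀) η hη
      refine ⟨Metric.ball β₀ c, mem_nhdsWithin_of_mem_nhds (Metric.ball_mem_nhds β₀ hc0),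
        H₀, fun H hH => ?_⟩
      obtain ⟨N₀, hN₀⟩ := hH₀ H hH
      refine ⟨N₀, fun N hN β hβ => hN₀ N hN β ?_⟩
      rw [Metric.mem_ball, Real.dist_eq] at hβ
      exact hβ
  obtain ⟨H₀, hH₀⟩ := main
  refine ⟨H₀, fun H hH => ?_⟩
  obtain ⟨N₀, hN₀⟩ := hH₀ H hH
  refine ⟨N₀, fun N hN β => ?_⟩
  have h1 := hN₀ N hN (Int.fract β) ⟨Int.fract_nonneg β, (Int.fract_lt_one β).le⟩
  rw [tot_fract] at h1
  exact h1

end Pool.Agent.H67.LF
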