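import Pool.Agent.H67.LF.SYX

/-!
# MP_c59857_nt, Theorem U, front end: the limit of the local means
-/

set_option autoImplicit false

open MeasureTheory ProbabilityTheory Filter Topology Finset
open scoped Nat ENNReal

namespace Pool.Agent.H67.LF

open Pool.Agent.H28.LF

section Twist

variable {Ω : Type} [MeasurableSpace Ω] {P : Measure Ω} [IsProbabilityMeasure P]

theorem tw_memLp {T : Ω → Ω} (hT : MeasurePreserving T P P) {q : Ω → ℂ} (hq : Measurable q)
    (h1 : ∀ ω, ‖q ω‖ = 1) (ψ : Lp ℂ 2 P) : MemLp (fun ω => q ω * ψ (T ω)) 2 P := by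
  have h2 : MemLp (fun ω => ψ (T ω)) 2 P := (Lp.memLp ψ).comp_measurePreserving hT
  refine h2.of_le (hq.aestronglyMeasurable.mul h2.1) (Eventually.of_forall fun ω => ?_)
  rw [norm_mul, h1, one_mul]

/-- composition with `T` and multiplication by `q` -/
noncomputable def tw {T : Ω → Ω} (hT : MeasurePreserving T P P) {q : Ω → ℂ} (hq : Measurable q)
    (h1 : ∀ ω, ‖q ω‖ = 1) : Lp ℂ 2 P →L[ℂ] Lp ℂ 2 P :=
  LinearMap.mkContinuous
    { toFun := fun ψ => (tw_memLp hT hq h1 ψ).toLp _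
      map_add' := by
        intro a b
        apply Lp.ext
        filter_upwards [(tw_memLp hT hq h1 (a + b)).coeFn_toLp,
          (tw_memLp hT hq h1 a).coeFn_toLp, (tw_memLp hT hq h1 b).coeFn_toLp,
          Lp.coeFn_add ((tw_memLp hT hq h1 a).toLp _) ((tw_memLp hT hq h1 b).toLp _),
          hT.quasiMeasurePreserving.ae (Lp.coeFn_add a b)] with ω e1 e2 e3 e4 e5
        rw [e1, e4, Pi.add_apply, e2, e3, e5, Pi.add_apply, mul_add]
      map_smul' := by
        intro c a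
        apply Lp.ext
        filter_upwards [(tw_memLp hT hq h1 (c • a)).coeFn_toLp,
          (tw_memLp hT hq h1 a).coeFn_toLp,
          Lp.coeFn_smul c ((tw_memLp hT hq h1 a).toLp _),
          hT.quasiMeasurePreserving.ae (Lp.coeFn_smul c a)] with ω e1 e2 e4 e5
        rw [e1, RingHom.id_apply, e4, Pi.smul_apply, e2, e5, Pi.smul_apply, smul_eq_mul,
          smul_eq_mul]
        ring } 1 (by
    intro ψ
    rw [one_mul]
    show ‖(tw_memLp hT hq h1 ψ).toLp _‖ ≤ ‖ψ‖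
    rw [Lp.norm_toLp, Lp.norm_def]
    refine ENNReal.toReal_mono (by finiteness) ?_
    rw [← eLpNorm_comp_measurePreserving (Lp.aestronglyMeasurable ψ) hT]
    refine eLpNorm_mono_ae (Eventually.of_forall fun ω => ?_)
    rw [norm_mul, h1, one_mul]
    exact le_rfl)

theorem tw_norm {T : Ω → Ω} (hT : MeasurePreserving T P P) {q : Ω → ℂ} (hq : Measurable q)
    (h1 : ∀ ω, ‖q ω‖ = 1) : ‖tw hT hq h1‖ ≤ 1 :=
  LinearMap.mkContinuous_norm_le _ zero_le_one _

theorem tw_coe {T : Ω → Ω} (hT : MeasurePreserving T P P) {q : Ω → ℂ} (hq : Measurable q)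
    (h1 : ∀ ω, ‖q ω‖ = 1) (ψ : Lp ℂ 2 P) :
    tw hT hq h1 ψ =ᵐ[P] fun ω => q ω * ψ (T ω) :=
  (tw_memLp hT hq h1 ψ).coeFn_toLp

/-- the constant function -/
noncomputable def on (P : Measure Ω) [IsProbabilityMeasure P] : Lp ℂ 2 P :=
  (memLp_const (1 : ℂ)).toLp (fun _ : Ω => (1 : ℂ))

theorem on_coe : on P =ᵐ[P] fun _ => (1 : ℂ) := MemLp.coeFn_toLp _

theorem tw_iter {T : Ω → Ω} (hT : MeasurePreserving T P P) {q : Ω → ℂ} (hq : Measurable q)
    (h1 : ∀ ω, ‖q ω‖ = 1) (j : ℕ) :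
    ((tw hT hq h1)^[j] (on P) : Lp ℂ 2 P) =ᵐ[P] fun ω => ∏ i ∈ range j, q (T^[i] ω) := by
  induction j with
  | zero =>
    filter_upwards [on_coe (P := P)] with ω hω
    rw [Function.iterate_zero, id, hω, Finset.prod_range_zero]
  | succ j ih =>
    rw [Function.iterate_succ_apply']
    filter_upwards [tw_coe hT hq h1 ((tw hT hq h1)^[j] (on P)),
      hT.quasiMeasurePreserving.ae ih] with ω e1 e2
    rw [e1, e2, Finset.prod_range_succ']
    rw [Function.iterate_zero, id, mul_comm]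
    congr 1

theorem l2_sq (f : Lp ℂ 2 P) : ∫ ω, ‖f ω‖ ^ 2 ∂P = ‖f‖ ^ 2 := by
  have h := L2.inner_def (𝕜 := ℂ) f f
  rw [inner_self_eq_norm_sq_to_K] at h
  have h2 : ∫ a, inner ℂ (f a) (f a) ∂P = ∫ a, ((‖f a‖ ^ 2 : ℝ) : ℂ) ∂P := by
    refine integral_congr_ae (Eventually.of_forall fun a => ?_)
    show inner ℂ (f a) (f a) = _
    rw [inner_self_eq_norm_sq_to_K]
    push_cast
    rfl
  rw [h2, integral_complex_ofReal] at h
  have h3 : ((‖f‖ ^ 2 : ℝ) : ℂ) = ((∫ ω, ‖f ω‖ ^ 2 ∂P : ℝ) : ℂ) := by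
    rw [← h]; push_cast; rfl
  exact (Complex.ofReal_injective h3).symm

/-- the twisted averages -/
noncomputable def SK (T : Ω → Ω) (q : Ω → ℂ) (K : ℕ) (ω : Ω) : ℂ :=
  (∑ k ∈ range K, ∏ i ∈ range (k + 1), q (T^[i] ω)) / K

theorem SK_le (T : Ω → Ω) {q : Ω → ℂ} (h1 : ∀ ω, ‖q ω‖ = 1) (K : ℕ) (ω : Ω) :
    ‖SK T q K ω‖ ≤ 1 := by
  unfold SK
  rw [norm_div, Complex.norm_natCast]
  refine div_le_one_of_le₀ ?_ (Nat.cast_nonneg K)
  refine (norm_sum_le _ _).trans ?_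
  have : ∀ k ∈ range K, ‖∏ i ∈ range (k + 1), q (T^[i] ω)‖ = 1 := by
    intro k _
    rw [norm_prod]
    exact Finset.prod_eq_one fun i _ => h1 _
  rw [Finset.sum_congr rfl this]
  simp

theorem birk_coe {T : Ω → Ω} (hT : MeasurePreserving T P P) {q : Ω → ℂ} (hq : Measurable q)
    (h1 : ∀ ω, ‖q ω‖ = 1) (K : ℕ) :
    (birkhoffAverage ℂ (tw hT hq h1) _root_.id K (tw hT hq h1 (on P)) : Lp ℂ 2 P)
      =ᵐ[P] SK T q K := by
  unfold birkhoffAverage birkhoffSum
  have h2 : ∀ k : ℕ, _root_.id ((tw hT hq h1)^[k] (tw hT hq h1 (on P))) =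
      (tw hT hq h1)^[k + 1] (on P) := by
    intro k
    rw [Function.iterate_succ_apply]
    rfl
  have h3 : ∀ᵐ ω ∂P, ∀ k : ℕ, ((tw hT hq h1)^[k + 1] (on P) : Lp ℂ 2 P) ω =
      ∏ i ∈ range (k + 1), q (T^[i] ω) := by
    rw [ae_all_iff]
    intro k
    exact tw_iter hT hq h1 (k + 1)
  rw [Finset.sum_congr rfl fun k _ => h2 k]
  filter_upwards [Lp.coeFn_smul ((K : ℂ)⁻¹) (∑ k ∈ range K, (tw hT hq h1)^[k + 1] (on P)),
    Lp.coeFn_finsetSum (range K) (fun k => (tw hT hq h1)^[k + 1] (on P)), h3] with ω e1 e2 e3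
  rw [e1, Pi.smul_apply, e2, Finset.sum_apply, Finset.sum_congr rfl fun k _ => e3 k, smul_eq_mul]
  unfold SK
  rw [div_eq_inv_mul]

theorem mean_tw {T : Ω → Ω} (hT : MeasurePreserving T P P) {q : Ω → ℂ} (hq : Measurable q)
    (h1 : ∀ ω, ‖q ω‖ = 1) : ∃ m : Ω → ℂ, Measurable m ∧ (∀ᵐ ω ∂P, ‖m ω‖ ≤ 1) ∧
      (∀ᵐ ω ∂P, q ω * m (T ω) = m ω) ∧
      Tendsto (fun K => ∫ ω, ‖SK T q K ω - m ω‖ ^ 2 ∂P) atTop (𝓝 0) := by
  have ht := (tw hT hq h1).tendsto_birkhoffAverage_orthogonalProjection (tw_norm hT hq h1)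
    (tw hT hq h1 (on P))
  set S := (tw hT hq h1).eqLocus (1 : Lp ℂ 2 P →L[ℂ] Lp ℂ 2 P) with hS
  set M : Lp ℂ 2 P := (S.orthogonalProjectionOnto (tw hT hq h1 (on P))).1 with hM
  have hMS : M ∈ S := (S.orthogonalProjectionOnto (tw hT hq h1 (on P))).2
  have hMM : tw hT hq h1 M = M := hMS
  have hlim : Tendsto (fun K => ∫ ω, ‖SK T q K ω - M ω‖ ^ 2 ∂P) atTop (𝓝 0) := by
    have e : ∀ K : ℕ, ∫ ω, ‖SK T q K ω - M ω‖ ^ 2 ∂P =
        ‖birkhoffAverage ℂ (tw hT hq h1) _root_.id K (tw hT hq h1 (on P)) - M‖ ^ 2 := by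
      intro K
      rw [← l2_sq]
      refine integral_congr_ae ?_
      filter_upwards [birk_coe hT hq h1 K, Lp.coeFn_sub
        (birkhoffAverage ℂ (tw hT hq h1) _root_.id K (tw hT hq h1 (on P))) M] with ω e1 e2
      rw [e2, Pi.sub_apply, e1]
    simp_rw [e]
    have h4 := (tendsto_iff_norm_sub_tendsto_zero.1 ht).pow 2
    rw [zero_pow two_ne_zero] at h4
    exact h4
  refine ⟨M, (Lp.stronglyMeasurable M).measurable, ?_, ?_, hlim⟩
  · set g : Ω → ℝ := fun ω => (max (‖M ω‖ - 1) 0) ^ 2 with hg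
    have hi : Integrable (fun ω => ‖M ω‖ ^ 2) P := (Lp.memLp M).integrable_norm_pow two_ne_zero
    have hgm : Measurable g := by
      have := (Lp.stronglyMeasurable M).measurable
      fun_prop
    have hgi : Integrable g P := by
      refine hi.mono' hgm.aestronglyMeasurable (Eventually.of_forall fun ω => ?_)
      rw [Real.norm_eq_abs, abs_of_nonneg (sq_nonneg _)]
      refine pow_le_pow_left₀ (le_max_right _ _) (max_le ?_ (norm_nonneg _)) 2
      linarith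
    have hdi : ∀ K, Integrable (fun ω => ‖SK T q K ω - M ω‖ ^ 2) P := by
      intro K
      have h5 := (Lp.memLp (birkhoffAverage ℂ (tw hT hq h1) _root_.id K
        (tw hT hq h1 (on P)) - M)).integrable_norm_pow two_ne_zero
      refine h5.congr ?_
      filter_upwards [birk_coe hT hq h1 K, Lp.coeFn_sub
        (birkhoffAverage ℂ (tw hT hq h1) _root_.id K (tw hT hq h1 (on P))) M] with ω e1 e2
      rw [e2, Pi.sub_apply, e1]
    have hle : ∀ K, ∫ ω, g ω ∂P ≤ ∫ ω, ‖SK T q K ω - M ω‖ ^ 2 ∂P := by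
      intro K
      refine integral_mono hgi (hdi K) fun ω => ?_
      refine pow_le_pow_left₀ (le_max_right _ _) (max_le ?_ (norm_nonneg _)) 2
      have a1 := SK_le T h1 K ω
      have a2 : ‖M ω‖ - ‖SK T q K ω‖ ≤ ‖SK T q K ω - M ω‖ := by
        rw [norm_sub_rev]
        exact norm_sub_norm_le _ _
      linarith
    have h0 : ∫ ω, g ω ∂P = 0 := by
      refine le_antisymm (ge_of_tendsto' hlim hle) (integral_nonneg fun ω => sq_nonneg _)
    rw [integral_eq_zero_iff_of_nonneg (fun ω => sq_nonneg _) hgi] at h0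
    filter_upwards [h0] with ω hω
    have h6 : max (‖M ω‖ - 1) 0 = 0 := by
      have : (max (‖M ω‖ - 1) 0) ^ 2 = 0 := hω
      exact pow_eq_zero_iff two_ne_zero |>.1 this
    have h7 := le_max_left (‖M ω‖ - 1) 0
    linarith
  · have h8 := tw_coe hT hq h1 M
    rw [hMM] at h8
    filter_upwards [h8] with ω hω
    exact hω.symm

end Twist

theorem shX_iter (ξ : Xi) (i : ℕ) (t : ℤ) : (shX^[i] ξ) t = ξ (t + i) := by
  induction i generalizing t with
  | zero => simp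
  | succ i ih =>
    rw [Function.iterate_succ_apply']
    show (shX^[i] ξ) (t + 1) = _
    rw [ih]
    congr 1
    push_cast; ring

theorem em_add (s t : ℝ) : Pool.Agent.H28.LF.em (s + t) =
    Pool.Agent.H28.LF.em s * Pool.Agent.H28.LF.em t := by
  unfold Pool.Agent.H28.LF.em
  rw [← Complex.exp_add]
  congr 1
  push_cast; ring

theorem em_norm (t : ℝ) : ‖Pool.Agent.H28.LF.em t‖ = 1 := by
  unfold Pool.Agent.H28.LF.em
  have : -(2 * (Real.pi : ℂ) * Complex.I * t) = ((-(2 * Real.pi * t) : ℝ) : ℂ) * Complex.I := by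
    push_cast; ring
  rw [this, Complex.norm_exp_ofReal_mul_I]

theorem em_nat (t : ℝ) (k : ℕ) : Pool.Agent.H28.LF.em (k * t) =
    Pool.Agent.H28.LF.em t ^ k := by
  induction k with
  | zero =>
    rw [Nat.cast_zero, zero_mul, pow_zero]
    unfold Pool.Agent.H28.LF.em
    simp
  | succ k ih =>
    rw [pow_succ, ← ih, ← em_add]
    congr 1
    push_cast; ring

theorem pf_MEA (hT : T_THV) : T_MEA := by
  intro u ε PX hu hX
  haveI := hX.prob
  set q : Xi → ℂ := fun ξ => Pool.Agent.H28.LF.em (thX ξ) * u (wX ξ 0) with hq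
  have hqm : Measurable q :=
    ((cont_em.comp (cont_thX hT)).mul (cont_ux u 0)).measurable
  have h1 : ∀ ξ, ‖q ξ‖ = 1 := by
    intro ξ
    show ‖Pool.Agent.H28.LF.em (thX ξ) * u (wX ξ 0)‖ = 1
    rw [norm_mul, em_norm, hu, one_mul]
  obtain ⟨m, hm, hm1, hm2, hm3⟩ := mean_tw hX.inv hqm h1
  refine ⟨m, hm, hm1, hm2, ?_⟩
  have hl : ∀ᵐ ξ ∂PX, ∀ i : ℕ, thX (shX^[i] ξ) = thX ξ := by
    have hl1 : ∀ᵐ ξ ∂PX, ∀ i : ℕ, (shX^[i] ξ 0).2 = (shX^[i] ξ 1).2 := by
      rw [ae_all_iff]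
      intro i
      exact (hX.inv.iterate i).quasiMeasurePreserving.ae hX.lab
    filter_upwards [hl1] with ξ hξ
    intro i
    unfold thX
    congr 1
    induction i with
    | zero => rfl
    | succ i ih =>
      rw [← ih, hξ i, Function.iterate_succ_apply']
      rfl
  have he : ∀ K : ℕ, ∫ ξ, ‖mm u K (thX ξ) (wX ξ) 0 - m ξ‖ ^ 2 ∂PX =
      ∫ ξ, ‖SK shX q K ξ - m ξ‖ ^ 2 ∂PX := by
    intro K
    refine integral_congr_ae ?_
    filter_upwards [hl] with ξ hξ
    have : mm u K (thX ξ) (wX ξ) 0 = SK shX q K ξ := by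
      unfold mm SK
      congr 1
      refine Finset.sum_congr rfl fun k _ => ?_
      have e1 : ∀ i ∈ range (k + 1), q (shX^[i] ξ) =
          Pool.Agent.H28.LF.em (thX ξ) * u (wX ξ (0 + i)) := by
        intro i _
        show Pool.Agent.H28.LF.em (thX (shX^[i] ξ)) * u (wX (shX^[i] ξ) 0) = _
        rw [hξ i]
        congr 2
        unfold wX
        rw [shX_iter]
        congr 2
        push_cast; ring
      rw [Finset.prod_congr rfl e1, Finset.prod_mul_distrib, Finset.prod_const, Finset.card_range]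
      unfold Pr
      congr 1
      rw [← em_nat]
      congr 1
      push_cast; ring
    show ‖mm u K (thX ξ) (wX ξ) 0 - m ξ‖ ^ 2 = ‖SK shX q K ξ - m ξ‖ ^ 2
    rw [this]
  simp_rw [he]
  exact hm3

end Pool.Agent.H67.LF
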