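import Pool.Agent.H67.LF.Hlp

/-!
Project LF, row ND1: the frequency of the mismatches of two points is not in `[u, 2u)`.
-/

set_option autoImplicit false

open MeasureTheory ProbabilityTheory Filter Topology Finset
open scoped Nat ENNReal

namespace Pool.Agent.H67.LF

open Pool.Agent.H24.T2 (Pset)
open Pool.Agent.H67.AG (avgP ul Inv TT Fac)
open Pool.Agent.H28.LF

theorem pf_ND1 (hP : T_PIR) (hS : T_STC) (hF : T_LAF) (hL : T_LAB) : T_ND1 := by
  intro c K u Q _ hK hLa hu huK hf1 hf2 mp hcon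
  set f : c.X × c.X → ℝ := dm (fun p => c.a p.1) (fun p => c.a p.2) with hf
  have ha1 : Measurable (fun p : c.X × c.X => c.a p.1) := c.am.comp measurable_fst
  have ha2 : Measurable (fun p : c.X × c.X => c.a p.2) := c.am.comp measurable_snd
  have hfm : Measurable f := dm_meas ha1 ha2
  have hfi : Integrable f Q := int_bdd hfm 1 fun ω =>
    abs_le.2 ⟨by linarith [dm_nonneg (fun p : c.X × c.X => c.a p.1) (fun p => c.a p.2) ω],
      dm_le _ _ ω⟩
  have hle : Inv (TT c.T) 1 ≤ (inferInstance : MeasurableSpace (c.X × c.X)) :=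
    MeasurableSpace.invariants_le _
  have hκ : 0 < c.κ := by
    unfold Ux.κ
    have := c.γ0
    positivity
  have hKr : (1 : ℝ) ≤ K := by exact_mod_cast hK
  -- γ ≤ 1
  have hLAB := hL c.X c.μ c.T c.U c.s c.q 0 (fun _ => ∅) c.a c.a Set.univ
    c.erg.toMeasurePreserving c.hU c.sv c.am c.am (@MeasurableSet.univ _ (Inv c.T 1))
  have hds1 : ds c.U c.s ≤ 1 := hLAB.2.2.1
  have hγ1 : c.γ ≤ 1 := c.hγ.trans hds1
  -- the window
  set L : ℕ := ⌊c.κ / u⌋₊ with hLdef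
  have hq0 : 0 ≤ c.κ / u := by positivity
  have hL1 : (L : ℝ) ≤ c.κ / u := Nat.floor_le hq0
  have hL2 : c.κ / u < (L : ℝ) + 1 := Nat.lt_floor_add_one _
  have hLu : (L : ℝ) * u ≤ c.κ := by
    rw [le_div_iff₀ hu] at hL1
    exact hL1
  have hLu2 : c.κ < ((L : ℝ) + 1) * u := by
    rw [div_lt_iff₀ hu] at hL2
    exact hL2
  have huK' : u * (20 * K) ≤ c.κ := by
    rw [le_div_iff₀ (by positivity)] at huK
    exact huK
  have hLK : 20 * K ≤ L := by
    rw [hLdef]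
    refine Nat.le_floor ?_
    rw [le_div_iff₀ hu]
    push_cast
    linarith
  have hLKr : 20 * (K : ℝ) ≤ L := by exact_mod_cast hLK
  have hKL : K ≤ L := by omega
  -- the mean
  set m : ℝ := ∫ p, f p ∂Q with hm
  have hmu : u ≤ m := by
    have h1 : ∫ p, (Q[f | Inv (TT c.T) 1]) p ∂Q = m := integral_condExp hle
    have h2 : ∫ _p, u ∂Q ≤ ∫ p, (Q[f | Inv (TT c.T) 1]) p ∂Q :=
      integral_mono_ae (integrable_const u) integrable_condExp (hcon.mono fun p hp => hp.1)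
    rw [integral_const, probReal_univ, one_smul] at h2
    linarith
  -- STC
  have hstc := hS (c.X × c.X) Q (TT c.T) c.U f L c.γ u mp c.hU hfm
    (fun ω => ⟨dm_nonneg _ _ ω, dm_le _ _ ω⟩) c.γ0 hγ1 hu.le hLu
    (hcon.mono fun p hp => hp.2.le)
  -- PIR
  have hpir := hP (c.X × c.X) Q (TT c.T) c.U c.s c.q K L (c.Bad K L)
    (fun p => c.a p.1) (fun p => c.a p.2) Set.univ mp c.hU c.sv (c.code K L) hKL ha1 ha2
    (@MeasurableSet.univ _ (Inv (TT c.T) 1))
  have e1 : La c.U c.s Q (TT c.T) (fun p => c.a p.1) (c.Bad K L) Set.univ =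
      La c.U c.s c.μ c.T c.a (c.Bad K L) Set.univ :=
    hF (c.X × c.X) c.X Q c.μ (TT c.T) c.T Prod.fst c.U c.s c.q (L + K) (c.Bad K L) c.a hf1 c.am
  have e2 : La c.U c.s Q (TT c.T) (fun p => c.a p.2) (c.Bad K L) Set.univ =
      La c.U c.s c.μ c.T c.a (c.Bad K L) Set.univ :=
    hF (c.X × c.X) c.X Q c.μ (TT c.T) c.T Prod.snd c.U c.s c.q (L + K) (c.Bad K L) c.a hf2 c.am
  have e3 := hLa L hKL
  rw [e1, e2, setIntegral_univ] at hpir
  have hγ0 := c.γ0
  have hLpos : 0 < (L : ℝ) := by linarith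
  have h1 : c.γ * ((L : ℝ) - 3 * K) * m ≤ ds c.U c.s * ((L : ℝ) - 3 * K) * m := by
    have h3 : 0 ≤ ((L : ℝ) - 3 * K) * m := mul_nonneg (by linarith) (by linarith)
    have := mul_le_mul_of_nonneg_right c.hγ h3
    linarith
  have h2 : 2 * ((L : ℝ) - K) * ∑ d ∈ Icc 1 L, Cd c.U Q (TT c.T) f Set.univ d ≤
      ((L : ℝ) - K) * (c.γ / 8 * m) := by
    have := mul_le_mul_of_nonneg_left hstc (show (0 : ℝ) ≤ (L : ℝ) - K by linarith)
    linarith
  have h3 : c.γ * ((L : ℝ) - 3 * K) * m ≤ c.γ * c.κ / 8 + ((L : ℝ) - K) * (c.γ / 8 * m) := by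
    have h4 := hpir
    change ds c.U c.s * ((L : ℝ) - 3 * K) * m ≤ _ at h4
    linarith
  have h4 : c.γ * (((L : ℝ) - 3 * K) * m) ≤ c.γ * (c.κ / 8 + ((L : ℝ) - K) * (m / 8)) := by
    nlinarith [h3]
  have h5 : ((L : ℝ) - 3 * K) * m ≤ c.κ / 8 + ((L : ℝ) - K) * (m / 8) :=
    le_of_mul_le_mul_left h4 hγ0
  -- m (7L/8 - 23K/8) ≤ κ/8
  have h6 : m * (7 * L - 23 * K) ≤ c.κ := by nlinarith [h5]
  have h7 : u * (7 * L - 23 * K) ≤ m * (7 * L - 23 * K) :=
    mul_le_mul_of_nonneg_right hmu (by linarith)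
  have h8 : u * (5 * L) ≤ u * (7 * L - 23 * K) :=
    mul_le_mul_of_nonneg_left (by linarith) hu.le
  have h9 : u * 20 ≤ c.κ := by
    have := mul_le_mul_of_nonneg_left hKr hu.le
    linarith
  nlinarith [h6, h7, h8, h9, hLu2]

end Pool.Agent.H67.LF
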