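import Pool.Agent.H28.LF.T1

/-!
Project LF, row PW3: the pointwise inequality for two words.
-/

set_option autoImplicit false

open Finset

namespace Pool.Agent.H67.LF

open Pool.Agent.H28.LF

open Classical in
theorem pf_PW3 : T_PW3 := by
  intro q K L v v' B hC
  have h0 : (0 : ℝ) ≤ (if v ∈ B then (1 : ℝ) else 0) := by split_ifs <;> norm_num
  have h0' : (0 : ℝ) ≤ (if v' ∈ B then (1 : ℝ) else 0) := by split_ifs <;> norm_num
  set S := univ.filter fun i : Fin (L + K) => K ≤ (i : ℕ) ∧ (i : ℕ) < L ∧ v i ≠ v' i with hS
  set S' := univ.filter fun i : Fin (L + K) => ¬ (K ≤ (i : ℕ) ∧ (i : ℕ) < L) ∧ v i ≠ v' i with hS'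
  rcases Nat.lt_or_ge S'.card 1 with hM | hM
  · have hM0 : S'.card = 0 := by omega
    have hE : S' = ∅ := Finset.card_eq_zero.1 hM0
    rw [hM0]
    rcases Nat.lt_or_ge S.card 2 with hN | hN
    · rcases Nat.lt_or_ge S.card 1 with hN' | hN'
      · have h : S.card = 0 := by omega
        rw [h]
        push_cast
        linarith
      · have h1 : S.card = 1 := by omega
        obtain ⟨i, hi⟩ := Finset.card_eq_one.1 h1
        have him : i ∈ S := by rw [hi]; exact Finset.mem_singleton_self i
        have hi3 : K ≤ (i : ℕ) ∧ (i : ℕ) < L ∧ v i ≠ v' i := by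
          rw [hS, Finset.mem_filter] at him
          exact him.2
        have hB : v ∈ B ∨ v' ∈ B := by
          by_contra hcon
          rw [not_or] at hcon
          obtain ⟨j, hj, hvj⟩ := hC v v' hcon.1 hcon.2 i hi3.1 hi3.2.1 hi3.2.2
          by_cases hw : K ≤ (j : ℕ) ∧ (j : ℕ) < L
          · have : j ∈ S := by
              rw [hS, Finset.mem_filter]
              exact ⟨Finset.mem_univ _, hw.1, hw.2, hvj⟩
            rw [hi, Finset.mem_singleton] at this
            exact hj this
          · have : j ∈ S' := by
              rw [hS', Finset.mem_filter]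
              exact ⟨Finset.mem_univ _, hw, hvj⟩
            rw [hE] at this
            exact absurd this (Finset.notMem_empty j)
        rw [h1]
        rcases hB with h | h
        · rw [if_pos h]
          push_cast
          linarith
        · rw [if_pos h]
          push_cast
          linarith
    · have h2 : (2 : ℝ) ≤ (S.card : ℝ) := by exact_mod_cast hN
      push_cast
      nlinarith
  · have hM1 : (1 : ℝ) ≤ (S'.card : ℝ) := by exact_mod_cast hM
    have hq : (S.card : ℝ) - (S.card : ℝ) * ((S.card : ℝ) - 1) ≤ 1 := by
      rcases Nat.lt_or_ge S.card 1 with h | h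
      · have h : S.card = 0 := by omega
        rw [h]
        norm_num
      · have h1 : (1 : ℝ) ≤ (S.card : ℝ) := by exact_mod_cast h
        nlinarith
    linarith

end Pool.Agent.H67.LF
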