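import Pool.Agent.H28.LF.F1

/-!
# MP_c59857_nt, Theorem U, front end: shift invariant measures
-/

set_option autoImplicit false

open MeasureTheory ProbabilityTheory Filter Topology Finset
open scoped Nat ENNReal

namespace Pool.Agent.H67.LF

open Pool.Agent.H28.LF
open Pool.Agent.H24.MR (lam FinAddInv)
open Pool.Agent.H28.MCL (ldB Aw)

/-- monotone -/
theorem fai_mono {μ : Set ℕ → ℝ} (h : FinAddInv μ) {A B : Set ℕ} (hs : A ⊆ B) : μ A ≤ μ B := by
  have e : B = A ∪ (B \ A) := (Set.union_diff_cancel hs).symm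
  have h1 := h.add A (B \ A) Set.disjoint_sdiff_right
  rw [← e] at h1
  have h2 := h.nonneg (B \ A)
  linarith

theorem shS_ptS {A : Type} [TopologicalSpace A] (l : ℕ → A) (n : ℕ) :
    shS A (ptS l n) = ptS l (n + 1) := by
  funext t
  show l ((n : ℤ) + (t + 1)).toNat = l (((n + 1 : ℕ) : ℤ) + t).toNat
  have : (n : ℤ) + (t + 1) = ((n + 1 : ℕ) : ℤ) + t := by push_cast; ring
  rw [this]

/-- a compact set in an open set is in a clopen set in between -/
theorem exists_clopen {X : Type} [TopologicalSpace X] [CompactSpace X] [T2Space X]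
    [TotallyDisconnectedSpace X] {C U : Set X} (hC : IsCompact C) (hU : IsOpen U) (hs : C ⊆ U) :
    ∃ K : Set X, IsClopen K ∧ C ⊆ K ∧ K ⊆ U := by
  have key : ∀ x ∈ C, ∃ t ∈ 𝓝[C] x, ∃ K : Set X, IsClopen K ∧ t ⊆ K ∧ K ⊆ U := by
    intro x hx
    obtain ⟨V, hV, hxV, hVU⟩ := compact_exists_isClopen_in_isOpen hU (hs hx)
    exact ⟨V, mem_nhdsWithin_of_mem_nhds (hV.isOpen.mem_nhds hxV), V, hV, subset_rfl, hVU⟩
  refine hC.induction_on (p := fun s => ∃ K : Set X, IsClopen K ∧ s ⊆ K ∧ K ⊆ U) ?_ ?_ ?_ key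
  · exact ⟨∅, isClopen_empty, subset_rfl, Set.empty_subset _⟩
  · rintro s t hst ⟨K, h1, h2, h3⟩
    exact ⟨K, h1, hst.trans h2, h3⟩
  · rintro s t ⟨K, h1, h2, h3⟩ ⟨K', h1', h2', h3'⟩
    exact ⟨K ∪ K', h1.union h1', Set.union_subset_union h2 h2', Set.union_subset h3 h3'⟩

theorem pf_SHP (hN : Pool.Agent.H24.UG.T_UNU) : T_SHP := by
  intro A _ _ _ _ _ _ _ μ l hμ
  obtain ⟨P, hP, hinv, hclo⟩ := hN (SS A) (shS A) μ (ptS l) hμ (fun n => shS_ptS l n)
  refine ⟨P, hP, hinv, hclo, ?_⟩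
  intro C hC
  refine le_of_forall_pos_le_add ?_
  intro ε hε
  have hlt : P C < P C + ENNReal.ofReal ε :=
    ENNReal.lt_add_right (measure_ne_top _ _) (by simpa using hε)
  haveI : SecondCountableTopology (SS A) := inferInstance
  haveI : TopologicalSpace.MetrizableSpace (SS A) :=
    TopologicalSpace.metrizableSpace_of_t3_secondCountable _
  obtain ⟨U, hCU, hU, hPU⟩ := C.exists_isOpen_lt_of_lt _ hlt
  obtain ⟨K, hK, hCK, hKU⟩ := exists_clopen hC.isCompact hU hCU
  have h1 : μ {n | ptS l n ∈ C} ≤ μ {n | ptS l n ∈ K} := fai_mono hμ (fun n hn => hCK hn)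
  have h2 : P.real K ≤ P.real C + ε := by
    have h3 : P K ≤ P C + ENNReal.ofReal ε := (measure_mono hKU).trans hPU.le
    have h4 := ENNReal.toReal_mono (by finiteness) h3
    rw [ENNReal.toReal_add (by finiteness) (by finiteness), ENNReal.toReal_ofReal hε.le] at h4
    exact h4
  rw [← hclo K hK] at h1
  linarith

end Pool.Agent.H67.LF
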