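import Pool.Agent.H28.LF.T1
import Pool.Agent.H67.AG.T3

/-!
Project LF: auxiliary facts on averages over primes, ultralimits and mismatches (helper67).
-/

set_option autoImplicit false

open MeasureTheory ProbabilityTheory Filter Topology Finset
open scoped Nat ENNReal

namespace Pool.Agent.H67.LF

open Pool.Agent.H24.T2 (Pset)
open Pool.Agent.H67.AG (avgP ul Inv TT Fac)
open Pool.Agent.H28.LF

/-! ### averages -/

theorem avg_mono (W m : ℕ) (F G : ℕ → ℝ) (h : ∀ p, F p ≤ G p) : avgP W m F ≤ avgP W m G := by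
  unfold avgP
  exact div_le_div_of_nonneg_right (Finset.sum_le_sum fun p _ => h p) (Nat.cast_nonneg _)

theorem avg_add (W m : ℕ) (F G : ℕ → ℝ) :
    avgP W m (fun p => F p + G p) = avgP W m F + avgP W m G := by
  unfold avgP
  rw [Finset.sum_add_distrib, add_div]

theorem avg_mul (W m : ℕ) (a : ℝ) (F : ℕ → ℝ) :
    avgP W m (fun p => a * F p) = a * avgP W m F := by
  unfold avgP
  rw [← Finset.mul_sum, mul_div_assoc]

theorem avg_sum (W m : ℕ) {ι : Type} (S : Finset ι) (F : ι → ℕ → ℝ) :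
    avgP W m (fun p => ∑ i ∈ S, F i p) = ∑ i ∈ S, avgP W m (F i) := by
  unfold avgP
  rw [Finset.sum_comm, Finset.sum_div]

theorem avg_abs (W m : ℕ) (F : ℕ → ℝ) (C : ℝ) (hC : 0 ≤ C) (h : ∀ p, |F p| ≤ C) :
    |avgP W m F| ≤ C := by
  unfold avgP
  rcases Nat.eq_zero_or_pos (Pset W m).card with h0 | h0
  · rw [h0]
    simpa using hC
  · have h1 : (0 : ℝ) < (Pset W m).card := by exact_mod_cast h0
    rw [abs_div, abs_of_pos h1, div_le_iff₀ h1]
    calc |∑ p ∈ Pset W m, F p| ≤ ∑ p ∈ Pset W m, |F p| := Finset.abs_sum_le_sum_abs _ _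
      _ ≤ ∑ _p ∈ Pset W m, C := Finset.sum_le_sum fun p _ => h p
      _ = C * (Pset W m).card := by rw [Finset.sum_const, nsmul_eq_mul, mul_comm]

/-! ### ultralimits of finite sums -/

theorem ul_sum (hU : Pool.Agent.H67.AG.T_UL) (U : Ultrafilter ℕ) {ι : Type} (S : Finset ι)
    (F : ι → ℕ → ℝ) (C : ℝ) (hF : ∀ i n, |F i n| ≤ C) :
    (∃ C', ∀ n, |∑ i ∈ S, F i n| ≤ C') ∧
      ul U (fun n => ∑ i ∈ S, F i n) = ∑ i ∈ S, ul U (F i) := by
  classical
  induction S using Finset.induction_on with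
  | empty =>
    refine ⟨⟨0, fun n => by simp⟩, ?_⟩
    simp only [Finset.sum_empty]
    exact (hU U).2.2.2.2 0
  | insert a S ha ih =>
    obtain ⟨⟨C', hC'⟩, h2⟩ := ih
    refine ⟨⟨C + C', fun n => ?_⟩, ?_⟩
    · rw [Finset.sum_insert ha]
      exact (abs_add_le _ _).trans (add_le_add (hF a n) (hC' n))
    · simp only [Finset.sum_insert ha]
      rw [(hU U).2.2.1 (F a) (fun n => ∑ i ∈ S, F i n) ⟨C, hF a⟩ ⟨C', hC'⟩, h2]

/-! ### invariance of integrals -/

section inv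

variable {Ω : Type} [MeasurableSpace Ω]

theorem inv_set {T : Ω ≃ᵐ Ω} {A : Set Ω} (hA : MeasurableSet[Inv T 1] A) :
    MeasurableSet A ∧ ∀ n : ℕ, (T^[n]) ⁻¹' A = A := by
  obtain ⟨h1, h2⟩ := MeasurableSpace.measurableSet_invariants.1 hA
  refine ⟨h1, fun n => ?_⟩
  have h3 : (⇑T) ⁻¹' A = A := by
    rw [Function.iterate_one] at h2
    exact h2
  induction n with
  | zero => rfl
  | succ n ih =>
    rw [Function.iterate_succ, Set.preimage_comp, ih, h3]

theorem int_inv {P : Measure Ω} [IsProbabilityMeasure P] {T : Ω ≃ᵐ Ω}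
    (mp : MeasurePreserving T P P) {A : Set Ω} (hA : MeasurableSet[Inv T 1] A) (f : Ω → ℝ)
    (hf : Measurable f) (n : ℕ) : ∫ ω in A, f (T^[n] ω) ∂P = ∫ ω in A, f ω ∂P := by
  obtain ⟨hAm, hAi⟩ := inv_set hA
  have h1 : MeasurePreserving (T^[n]) (P.restrict ((T^[n]) ⁻¹' A)) (P.restrict A) :=
    (mp.iterate n).restrict_preimage hAm
  rw [hAi n] at h1
  have h2 : ∫ ω, f (T^[n] ω) ∂(P.restrict A) =
      ∫ ω, f ω ∂(Measure.map (T^[n]) (P.restrict A)) :=
    (integral_map h1.measurable.aemeasurable hf.aestronglyMeasurable).symm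
  rw [h2, h1.map_eq]

theorem dm_meas {q : ℕ} {a a' : Ω → Fin q} (ha : Measurable a) (ha' : Measurable a') :
    Measurable (dm a a') := by
  classical
  unfold dm
  exact Measurable.ite (measurableSet_eq_fun ha ha') measurable_const measurable_const

theorem dm_01 {q : ℕ} (a a' : Ω → Fin q) (ω : Ω) : dm a a' ω = 0 ∨ dm a a' ω = 1 := by
  unfold dm
  split_ifs
  · exact Or.inl rfl
  · exact Or.inr rfl

theorem dm_nonneg {q : ℕ} (a a' : Ω → Fin q) (ω : Ω) : 0 ≤ dm a a' ω := by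
  rcases dm_01 a a' ω with h | h <;> rw [h]
  norm_num

theorem dm_le {q : ℕ} (a a' : Ω → Fin q) (ω : Ω) : dm a a' ω ≤ 1 := by
  rcases dm_01 a a' ω with h | h <;> rw [h]
  norm_num

theorem int_bdd {P : Measure Ω} [IsFiniteMeasure P] {f : Ω → ℝ} (hf : Measurable f) (C : ℝ)
    (h : ∀ ω, |f ω| ≤ C) : Integrable f P :=
  Integrable.of_bound hf.aestronglyMeasurable C (Filter.Eventually.of_forall fun ω => by
    rw [Real.norm_eq_abs]
    exact h ω)

theorem Wd_meas {q : ℕ} (T : Ω ≃ᵐ Ω) {a : Ω → Fin q} (ha : Measurable a) (R p : ℕ)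
    (B : Set (Fin R → Fin q)) : MeasurableSet {ω | Wd T a R p ω ∈ B} := by
  have h : Measurable (Wd T a R p) := by
    refine measurable_pi_lambda _ fun i => ?_
    exact ha.comp (T.measurable.iterate _)
  exact h (Set.toFinite B).measurableSet

end inv

end Pool.Agent.H67.LF
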